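import Pool.Agent.R228.AG.Defs

/-!
# Three quadratics in twelve variables with hidden hyperplane convexity

`f₁ = 2⟨x, y⟩`, `f₂ = 2|y|² - 2⟨x, y⟩ - 2`, `f₃ = 2|x|² - 2⟨x, y⟩ - 2` for `x, y ∈ ℝ⁶`. The good
aggregations are those for which the `2 × 2` matrix `[[2λ₃, λ₁-λ₂-λ₃], [λ₁-λ₂-λ₃, 2λ₂]]` is positive
semidefinite, and infinitely many of them are needed (the convex hull of `S` is the open unit ball of
the spectral norm of the `2 × 6` matrix with the rows `x`, `y`).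
-/

set_option autoImplicit false

namespace Pool.Agent.R228.AG

open Matrix

/-- The index type of the twelve variables. -/
abbrev I12 : Type := Fin 6 ⊕ Fin 6

/-- A matrix with four scalar blocks. -/
def blk (a p d : ℝ) : Matrix I12 I12 ℝ :=
  Matrix.fromBlocks (a • (1 : Matrix (Fin 6) (Fin 6) ℝ)) (p • (1 : Matrix (Fin 6) (Fin 6) ℝ))
    (p • (1 : Matrix (Fin 6) (Fin 6) ℝ)) (d • (1 : Matrix (Fin 6) (Fin 6) ℝ))

/-- The system of the three quadratics. -/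
def sys : QuadSystem I12 3 where
  A := ![blk 0 1 0, blk 0 (-1) 2, blk 2 (-1) 0]
  symm := fun i => by
    fin_cases i <;> simp [Matrix.IsSymm, blk, Matrix.fromBlocks_transpose]
  b := fun _ => 0
  c := ![0, -2, -2]

theorem blk_quad (a p d : ℝ) (x : I12 → ℝ) : x ⬝ᵥ (blk a p d).mulVec x =
    a * (∑ i, x (Sum.inl i) ^ 2) + 2 * p * (∑ i, x (Sum.inl i) * x (Sum.inr i)) +
      d * ∑ i, x (Sum.inr i) ^ 2 := by
  unfold blk
  rw [Matrix.fromBlocks_mulVec]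
  rw [dotProduct, Fintype.sum_sum_type]
  simp only [Sum.elim_inl, Sum.elim_inr, Matrix.smul_mulVec, Matrix.one_mulVec, Pi.add_apply,
    Pi.smul_apply, Function.comp_apply, smul_eq_mul, Finset.mul_sum]
  rw [← Finset.sum_add_distrib, ← Finset.sum_add_distrib, ← Finset.sum_add_distrib]
  refine Finset.sum_congr rfl fun i _ => ?_
  ring

/-- The three moments. -/
def gx (x : I12 → ℝ) : ℝ := ∑ i, x (Sum.inl i) ^ 2

/-- The second moment. -/
def gp (x : I12 → ℝ) : ℝ := ∑ i, x (Sum.inl i) * x (Sum.inr i)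

/-- The third moment. -/
def gy (x : I12 → ℝ) : ℝ := ∑ i, x (Sum.inr i) ^ 2

theorem f0 (x : I12 → ℝ) : sys.f 0 x = 2 * gp x := by
  unfold QuadSystem.f
  have h : sys.A 0 = blk 0 1 0 := rfl
  have h2 : sys.b 0 = 0 := rfl
  have h3 : sys.c 0 = 0 := rfl
  rw [h, h2, h3, blk_quad, zero_dotProduct]
  unfold gp
  ring

theorem f1 (x : I12 → ℝ) : sys.f 1 x = 2 * gy x - 2 * gp x - 2 := by
  unfold QuadSystem.f
  have h : sys.A 1 = blk 0 (-1) 2 := rfl
  have h2 : sys.b 1 = 0 := rfl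
  have h3 : sys.c 1 = -2 := rfl
  rw [h, h2, h3, blk_quad, zero_dotProduct]
  unfold gp gy
  ring

theorem f2 (x : I12 → ℝ) : sys.f 2 x = 2 * gx x - 2 * gp x - 2 := by
  unfold QuadSystem.f
  have h : sys.A 2 = blk 2 (-1) 0 := rfl
  have h2 : sys.b 2 = 0 := rfl
  have h3 : sys.c 2 = -2 := rfl
  rw [h, h2, h3, blk_quad, zero_dotProduct]
  unfold gp gx
  ring

theorem fh_eq {ι : Type} [Fintype ι] [DecidableEq ι] {m : ℕ} (q : QuadSystem ι m) (i : Fin m)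
    (z : ι ⊕ Unit → ℝ) (hb : q.b i = 0) : q.fh z i =
      (fun j => z (Sum.inl j)) ⬝ᵥ (q.A i).mulVec (fun j => z (Sum.inl j)) +
        q.c i * z (Sum.inr ()) ^ 2 := by
  unfold QuadSystem.fh QuadSystem.Q
  rw [hb, Matrix.fromBlocks_mulVec]
  rw [dotProduct, Fintype.sum_sum_type]
  simp only [Sum.elim_inl, Sum.elim_inr, Pi.add_apply, Fintype.univ_unit, Finset.sum_singleton]
  have h1 : ∀ w : Unit → ℝ, (Matrix.of fun (j : ι) (_ : Unit) => (0 : ι → ℝ) j).mulVec w = 0 := by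
    intro w
    ext j
    simp [Matrix.mulVec, dotProduct]
  have h2 : ∀ w : ι → ℝ, (Matrix.of fun (_ : Unit) (j : ι) => (0 : ι → ℝ) j).mulVec w = 0 := by
    intro w
    ext j
    simp [Matrix.mulVec, dotProduct]
  have h3 : ∀ w : Unit → ℝ, (Matrix.of fun (_ _ : Unit) => q.c i).mulVec w () = q.c i * w () := by
    intro w
    simp [Matrix.mulVec, dotProduct]
  rw [h1, h2, h3]
  simp only [Pi.zero_apply, add_zero, zero_add, Function.comp_apply]
  have h4 : (z ∘ Sum.inl) = fun j => z (Sum.inl j) := rfl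
  rw [h4]
  show _ + _ = _ ⬝ᵥ _ + _
  rw [dotProduct]
  ring

theorem fh0 (z : I12 ⊕ Unit → ℝ) : sys.fh z 0 = 2 * gp (fun j => z (Sum.inl j)) := by
  rw [fh_eq sys 0 z rfl]
  have h : sys.A 0 = blk 0 1 0 := rfl
  have h3 : sys.c 0 = 0 := rfl
  rw [h, h3, blk_quad]
  unfold gp
  ring

theorem fh1 (z : I12 ⊕ Unit → ℝ) : sys.fh z 1 = 2 * gy (fun j => z (Sum.inl j)) -
    2 * gp (fun j => z (Sum.inl j)) - 2 * z (Sum.inr ()) ^ 2 := by
  rw [fh_eq sys 1 z rfl]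
  have h : sys.A 1 = blk 0 (-1) 2 := rfl
  have h3 : sys.c 1 = -2 := rfl
  rw [h, h3, blk_quad]
  unfold gp gy
  ring

theorem fh2 (z : I12 ⊕ Unit → ℝ) : sys.fh z 2 = 2 * gx (fun j => z (Sum.inl j)) -
    2 * gp (fun j => z (Sum.inl j)) - 2 * z (Sum.inr ()) ^ 2 := by
  rw [fh_eq sys 2 z rfl]
  have h : sys.A 2 = blk 2 (-1) 0 := rfl
  have h3 : sys.c 2 = -2 := rfl
  rw [h, h3, blk_quad]
  unfold gp gx
  ring

/-- Two vectors with given Gram matrix in the orthogonal complement of four vectors of `ℝ⁶`. -/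
theorem exists_gram (v : Fin 4 → Fin 6 → ℝ) (ξ η : Fin 6 → ℝ) : ∃ z w : Fin 6 → ℝ,
    (∀ k, v k ⬝ᵥ z = 0 ∧ v k ⬝ᵥ w = 0) ∧ z ⬝ᵥ z = ξ ⬝ᵥ ξ ∧ z ⬝ᵥ w = ξ ⬝ᵥ η ∧
      w ⬝ᵥ w = η ⬝ᵥ η := by
  -- an orthonormal pair in the complement
  obtain ⟨e₁, e₂, he1, he2, h11, h12, h22⟩ : ∃ e₁ e₂ : Fin 6 → ℝ, (∀ k, v k ⬝ᵥ e₁ = 0) ∧
      (∀ k, v k ⬝ᵥ e₂ = 0) ∧ e₁ ⬝ᵥ e₁ = 1 ∧ e₁ ⬝ᵥ e₂ = 0 ∧ e₂ ⬝ᵥ e₂ = 1 := by
    set K : Submodule ℝ (EuclideanSpace ℝ (Fin 6)) :=
      Submodule.span ℝ (Set.range fun k => WithLp.toLp 2 (v k)) with hK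
    have hKd : Module.finrank ℝ K ≤ 4 := by
      have h4 := finrank_range_le_card (R := ℝ)
        (fun k : Fin 4 => (WithLp.toLp 2 (v k) : EuclideanSpace ℝ (Fin 6)))
      rw [Fintype.card_fin] at h4
      exact h4
    have hsum := K.finrank_add_finrank_orthogonal
    rw [finrank_euclideanSpace, Fintype.card_fin] at hsum
    have hKo : 2 ≤ Module.finrank ℝ Kᗮ := by omega
    set b := stdOrthonormalBasis ℝ Kᗮ with hb
    set i₀ : Fin (Module.finrank ℝ Kᗮ) := ⟨0, by omega⟩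
    set i₁ : Fin (Module.finrank ℝ Kᗮ) := ⟨1, by omega⟩
    have hne : i₀ ≠ i₁ := by
      intro h
      have := congrArg Fin.val h
      simp [i₀, i₁] at this
    have hdot : ∀ x y : EuclideanSpace ℝ (Fin 6), x.ofLp ⬝ᵥ y.ofLp = inner ℝ x y := by
      intro x y
      have := EuclideanSpace.inner_toLp_toLp (𝕜 := ℝ) x.ofLp y.ofLp
      rw [show inner ℝ x y = inner ℝ (WithLp.toLp 2 x.ofLp) (WithLp.toLp 2 y.ofLp) from rfl, this]
      simp [dotProduct_comm]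
    refine ⟨((b i₀ : Kᗮ) : EuclideanSpace ℝ (Fin 6)).ofLp,
      ((b i₁ : Kᗮ) : EuclideanSpace ℝ (Fin 6)).ofLp, ?_, ?_, ?_, ?_, ?_⟩
    · intro k
      rw [show v k = (WithLp.toLp 2 (v k) : EuclideanSpace ℝ (Fin 6)).ofLp from rfl, hdot]
      exact (Submodule.mem_orthogonal K _).1 (b i₀).2 _ (Submodule.subset_span ⟨k, rfl⟩)
    · intro k
      rw [show v k = (WithLp.toLp 2 (v k) : EuclideanSpace ℝ (Fin 6)).ofLp from rfl, hdot]
      exact (Submodule.mem_orthogonal K _).1 (b i₁).2 _ (Submodule.subset_span ⟨k, rfl⟩)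
    · rw [hdot, ← Submodule.coe_inner, real_inner_self_eq_norm_sq, b.orthonormal.1 i₀, one_pow]
    · rw [hdot, ← Submodule.coe_inner]
      exact b.orthonormal.2 hne
    · rw [hdot, ← Submodule.coe_inner, real_inner_self_eq_norm_sq, b.orthonormal.1 i₁, one_pow]
  have h21 : e₂ ⬝ᵥ e₁ = 0 := by rw [dotProduct_comm, h12]
  have hA : 0 ≤ ξ ⬝ᵥ ξ := by
    rw [dotProduct]
    exact Finset.sum_nonneg fun i _ => mul_self_nonneg _
  have hD : 0 ≤ η ⬝ᵥ η := by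
    rw [dotProduct]
    exact Finset.sum_nonneg fun i _ => mul_self_nonneg _
  have hCS : (ξ ⬝ᵥ η) ^ 2 ≤ (ξ ⬝ᵥ ξ) * (η ⬝ᵥ η) := by
    have := Finset.sum_mul_sq_le_sq_mul_sq Finset.univ ξ η
    simp only [dotProduct]
    calc (∑ i, ξ i * η i) ^ 2 ≤ (∑ i, ξ i ^ 2) * ∑ i, η i ^ 2 := this
      _ = (∑ i, ξ i * ξ i) * ∑ i, η i * η i := by simp only [sq]
  set A := ξ ⬝ᵥ ξ
  set D := η ⬝ᵥ η
  set B := ξ ⬝ᵥ η
  rcases hA.eq_or_lt with h | h
  · -- `ξ` has norm zero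
    have hB : B = 0 := by
      rw [← h, zero_mul] at hCS
      exact pow_eq_zero_iff two_ne_zero |>.1 (le_antisymm hCS (sq_nonneg _))
    refine ⟨0, Real.sqrt D • e₁, fun k => ⟨dotProduct_zero _, ?_⟩, ?_, ?_, ?_⟩
    · rw [dotProduct_smul, he1, smul_zero]
    · rw [zero_dotProduct, h]
    · rw [zero_dotProduct, hB]
    · rw [dotProduct_smul, smul_dotProduct, h11, smul_eq_mul, smul_eq_mul, mul_one,
        Real.mul_self_sqrt hD]
  · have hs : 0 < Real.sqrt A := Real.sqrt_pos.2 h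
    have hr : 0 ≤ D - B ^ 2 / A := by
      rw [sub_nonneg, div_le_iff₀ h]
      linarith
    refine ⟨Real.sqrt A • e₁, (B / Real.sqrt A) • e₁ + Real.sqrt (D - B ^ 2 / A) • e₂,
      fun k => ⟨?_, ?_⟩, ?_, ?_, ?_⟩
    · rw [dotProduct_smul, he1, smul_zero]
    · rw [dotProduct_add, dotProduct_smul, dotProduct_smul, he1, he2, smul_zero, smul_zero, add_zero]
    · rw [dotProduct_smul, smul_dotProduct, h11, smul_eq_mul, smul_eq_mul, mul_one,
        Real.mul_self_sqrt hA]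
    · rw [dotProduct_add, smul_dotProduct, smul_dotProduct, dotProduct_smul, dotProduct_smul, h11,
        h12]
      simp only [smul_eq_mul, mul_one, mul_zero, add_zero]
      field_simp
    · simp only [dotProduct_add, add_dotProduct, smul_dotProduct, dotProduct_smul, h11, h12, h21,
        h22, smul_eq_mul, mul_one, mul_zero, add_zero, zero_add]
      rw [Real.mul_self_sqrt hr]
      have h5 : B / Real.sqrt A * (B / Real.sqrt A) = B ^ 2 / A := by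
        rw [div_mul_div_comm, Real.mul_self_sqrt hA, sq]
      rw [h5]
      ring

end Pool.Agent.R228.AG
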