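import Mathlib

/-!
# Systems of quadratic inequalities and aggregations
-/

set_option autoImplicit false

namespace Pool.Agent.R228.AG

open Matrix

/-- Quadratic functions `f i x = xᵀ (A i) x + 2 (b i)ᵀ x + c i`, `i = 1, …, m`, on `ℝⁿ`, the
coordinates of which are indexed by the `n` elements of a finite type `ι`. -/
structure QuadSystem (ι : Type) (m : ℕ) where
  /-- the quadratic parts -/
  A : Fin m → Matrix ι ι ℝ
  symm : ∀ i, (A i).IsSymm
  /-- the linear parts -/
  b : Fin m → ι → ℝ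
  /-- the constants -/
  c : Fin m → ℝ

variable {ι : Type} [Fintype ι] [DecidableEq ι] {m : ℕ}

/-- The function `f i`. -/
def QuadSystem.f (q : QuadSystem ι m) (i : Fin m) (x : ι → ℝ) : ℝ :=
  x ⬝ᵥ (q.A i).mulVec x + 2 * (q.b i ⬝ᵥ x) + q.c i

/-- The matrix `Q i`, with blocks `A i`, `b i`, `(b i)ᵀ`, `c i`. -/
def QuadSystem.Q (q : QuadSystem ι m) (i : Fin m) : Matrix (ι ⊕ Unit) (ι ⊕ Unit) ℝ :=
  Matrix.fromBlocks (q.A i) (Matrix.of fun j _ => q.b i j) (Matrix.of fun _ j => q.b i j)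
    (Matrix.of fun _ _ => q.c i)

/-- The homogeneous quadratic map `fʰ` on `ℝⁿ⁺¹`. -/
def QuadSystem.fh (q : QuadSystem ι m) (z : ι ⊕ Unit → ℝ) : Fin m → ℝ :=
  fun i => z ⬝ᵥ (q.Q i).mulVec z

/-- Hidden hyperplane convexity: the image of every hyperplane (linear subspace of dimension `n` of
`ℝⁿ⁺¹`) under `fʰ` is convex. -/
def QuadSystem.HHC (q : QuadSystem ι m) : Prop :=
  ∀ H : Submodule ℝ (ι ⊕ Unit → ℝ), Module.finrank ℝ H = Fintype.card ι →
    Convex ℝ (q.fh '' (H : Set (ι ⊕ Unit → ℝ)))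

/-- The solution set of the strict inequalities. -/
def QuadSystem.S (q : QuadSystem ι m) : Set (ι → ℝ) := {x | ∀ i, q.f i x < 0}

/-- The matrix of an aggregation. -/
def QuadSystem.Qagg (q : QuadSystem ι m) (lam : Fin m → ℝ) : Matrix (ι ⊕ Unit) (ι ⊕ Unit) ℝ :=
  ∑ i, lam i • q.Q i

/-- The solution set of an aggregation. -/
def QuadSystem.Sagg (q : QuadSystem ι m) (lam : Fin m → ℝ) : Set (ι → ℝ) :=
  {x | ∑ i, lam i * q.f i x < 0}

/-- The symmetric matrix `M` has at most one negative eigenvalue (counted with multiplicity). -/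
def AtMostOneNegEig {κ : Type} [Fintype κ] [DecidableEq κ] (M : Matrix κ κ ℝ) : Prop :=
  ∃ h : M.IsHermitian, (Finset.univ.filter fun j => h.eigenvalues j < 0).card ≤ 1

/-- A good aggregation. -/
def QuadSystem.Good (q : QuadSystem ι m) (lam : Fin m → ℝ) : Prop :=
  (∀ i, 0 ≤ lam i) ∧ lam ≠ 0 ∧ AtMostOneNegEig (q.Qagg lam) ∧
    convexHull ℝ q.S ⊆ q.Sagg lam

/-- The convex hull of `S` is the intersection of `r` sets `S_λ` with good `λ`, for some finite
`r ≥ 1`. -/
def QuadSystem.FinitelyDescribed (q : QuadSystem ι m) : Prop :=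
  ∃ (r : ℕ) (L : Fin r → Fin m → ℝ), 1 ≤ r ∧ (∀ j, q.Good (L j)) ∧
    convexHull ℝ q.S = ⋂ j, q.Sagg (L j)

/-- A symmetric matrix with at most one negative eigenvalue is nonnegative somewhere on the span of
any two linearly independent vectors. -/
theorem exists_nonneg {κ : Type} [Fintype κ] [DecidableEq κ] {M : Matrix κ κ ℝ}
    (h : AtMostOneNegEig M) (u v : κ → ℝ) :
    ∃ s t : ℝ, (s ≠ 0 ∨ t ≠ 0) ∧ 0 ≤ (s • u + t • v) ⬝ᵥ M.mulVec (s • u + t • v) := by
  obtain ⟨hM, hc⟩ := h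
  -- the eigenvector basis
  set e := hM.eigenvectorBasis with he
  have hquad : ∀ z : κ → ℝ, z ⬝ᵥ M.mulVec z =
      ∑ j, hM.eigenvalues j * (inner ℝ (e j) (WithLp.toLp 2 z)) ^ 2 := by
    intro z
    have h1 : z ⬝ᵥ M.mulVec z = inner ℝ (WithLp.toLp 2 (M.mulVec z)) (WithLp.toLp 2 z) := by
      rw [EuclideanSpace.inner_toLp_toLp]
      simp
    rw [h1, ← e.sum_inner_mul_inner (WithLp.toLp 2 (M.mulVec z)) (WithLp.toLp 2 z)]
    refine Finset.sum_congr rfl fun j _ => ?_
    have h2 : inner ℝ (WithLp.toLp 2 (M.mulVec z)) (e j) =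
        hM.eigenvalues j * inner ℝ (e j) (WithLp.toLp 2 z) := by
      have h3 := hM.mulVec_eigenvectorBasis j
      have h4 : inner ℝ (WithLp.toLp 2 (M.mulVec z)) (e j) = (e j).ofLp ⬝ᵥ M.mulVec z := by
        conv_lhs => rw [show e j = WithLp.toLp 2 (e j).ofLp from rfl]
        rw [EuclideanSpace.inner_toLp_toLp]
        simp [dotProduct_comm]
      have h5 : (e j).ofLp ⬝ᵥ M.mulVec z = M.mulVec (e j).ofLp ⬝ᵥ z := by
        rw [Matrix.dotProduct_mulVec, ← Matrix.mulVec_transpose]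
        have : Mᵀ = M := by
          have := hM.eq
          rwa [Matrix.conjTranspose_eq_transpose_of_trivial] at this
        rw [this]
      rw [h4, h5, h3, smul_dotProduct]
      have h6 : inner ℝ (e j) (WithLp.toLp 2 z) = (e j).ofLp ⬝ᵥ z := by
        conv_lhs => rw [show e j = WithLp.toLp 2 (e j).ofLp from rfl]
        rw [EuclideanSpace.inner_toLp_toLp]
        simp [dotProduct_comm]
      rw [h6]
      rfl
    rw [h2]
    ring
  -- a vector orthogonal to the negative eigenvector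
  have key : ∃ s t : ℝ, (s ≠ 0 ∨ t ≠ 0) ∧ ∀ j, hM.eigenvalues j < 0 →
      inner ℝ (e j) (WithLp.toLp 2 (s • u + t • v)) = 0 := by
    by_cases hex : ∃ j₀, hM.eigenvalues j₀ < 0
    · obtain ⟨j₀, hj₀⟩ := hex
      have huniq : ∀ j, hM.eigenvalues j < 0 → j = j₀ := by
        intro j hj
        exact Finset.card_le_one.1 hc j (by simp [hj]) j₀ (by simp [hj₀])
      have hlin : ∀ s t : ℝ, inner ℝ (e j₀) (WithLp.toLp 2 (s • u + t • v)) =
          s * inner ℝ (e j₀) (WithLp.toLp 2 u) + t * inner ℝ (e j₀) (WithLp.toLp 2 v) := by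
        intro s t
        rw [WithLp.toLp_add, WithLp.toLp_smul, WithLp.toLp_smul, inner_add_right,
          inner_smul_right, inner_smul_right]
      by_cases hu : inner ℝ (e j₀) (WithLp.toLp 2 u) = 0
      · refine ⟨1, 0, Or.inl one_ne_zero, fun j hj => ?_⟩
        rw [huniq j hj, hlin, hu]
        ring
      · refine ⟨inner ℝ (e j₀) (WithLp.toLp 2 v), -inner ℝ (e j₀) (WithLp.toLp 2 u),
          Or.inr (neg_ne_zero.2 hu), fun j hj => ?_⟩
        rw [huniq j hj, hlin]
        ring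
    · push Not at hex
      exact ⟨1, 0, Or.inl one_ne_zero, fun j hj => absurd hj (not_lt.2 (hex j))⟩
  obtain ⟨s, t, hst, hz⟩ := key
  refine ⟨s, t, hst, ?_⟩
  rw [hquad]
  refine Finset.sum_nonneg fun j _ => ?_
  by_cases hj : hM.eigenvalues j < 0
  · rw [hz j hj]
    norm_num
  · exact mul_nonneg (not_lt.1 hj) (sq_nonneg _)

end Pool.Agent.R228.AG
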