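import Pool.Agent.R228.AG.Ball

/-!
# Hidden hyperplane convexity and the need for infinitely many aggregations
-/

set_option autoImplicit false

namespace Pool.Agent.R228.AG

open Matrix

/-- The point with the coordinates `z`, `w`, `t`. -/
def mk (z w : Fin 6 → ℝ) (t : ℝ) : I12 ⊕ Unit → ℝ := Sum.elim (Sum.elim z w) (fun _ => t)

theorem hhc : sys.HHC := by
  intro H hH
  -- `H` is the kernel of a functional
  obtain ⟨φ, hφ⟩ : ∃ φ : (I12 ⊕ Unit → ℝ) →ₗ[ℝ] ℝ, H = LinearMap.ker φ := by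
    have hcard : Module.finrank ℝ (I12 ⊕ Unit → ℝ) = 13 := by
      rw [Module.finrank_fintype_fun_eq_card]
      rfl
    have hcard2 : Fintype.card I12 = 12 := rfl
    have hlt : H < ⊤ := by
      refine lt_top_iff_ne_top.2 fun h => ?_
      rw [h, finrank_top, hcard, hcard2] at hH
      omega
    obtain ⟨φ, hφ0, hφ⟩ := Submodule.exists_le_ker_of_lt_top H hlt
    refine ⟨φ, Submodule.eq_of_le_of_finrank_eq hφ ?_⟩
    have h1 := LinearMap.finrank_range_add_finrank_ker φ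
    have h2 : LinearMap.range φ = ⊤ := LinearMap.range_eq_top.2 (LinearMap.surjective hφ0)
    rw [h2, finrank_top, Module.finrank_self, hcard] at h1
    rw [hH, hcard2]
    omega
  set C₁ : Fin 6 → ℝ := fun i => φ (Pi.single (Sum.inl (Sum.inl i)) 1) with hC1
  set C₂ : Fin 6 → ℝ := fun i => φ (Pi.single (Sum.inl (Sum.inr i)) 1) with hC2
  have hmk : ∀ z w : Fin 6 → ℝ, φ (mk z w 0) = C₁ ⬝ᵥ z + C₂ ⬝ᵥ w := by
    intro z w
    have h1 : mk z w 0 = (∑ i, z i • Pi.single (Sum.inl (Sum.inl i)) (1 : ℝ)) +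
        ∑ i, w i • (Pi.single (Sum.inl (Sum.inr i)) (1 : ℝ) : I12 ⊕ Unit → ℝ) := by
      ext j
      rcases j with (j | j) | j
      · simp [mk, Finset.sum_apply, Pi.single_apply]
      · simp [mk, Finset.sum_apply, Pi.single_apply]
      · simp [mk, Finset.sum_apply, Pi.single_apply]
    rw [h1, map_add, map_sum, map_sum]
    simp only [map_smul, smul_eq_mul, dotProduct, hC1, hC2]
    congr 1
    · exact Finset.sum_congr rfl fun i _ => mul_comm _ _
    · exact Finset.sum_congr rfl fun i _ => mul_comm _ _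
  rintro _ ⟨z₁, hz₁, rfl⟩ _ ⟨z₂, hz₂, rfl⟩ α β hα hβ hαβ
  rw [hφ] at hz₁ hz₂
  have hz1 : φ z₁ = 0 := hz₁
  have hz2 : φ z₂ = 0 := hz₂
  obtain ⟨p, hp⟩ : ∃ p, p = Real.sqrt α := ⟨_, rfl⟩
  obtain ⟨q, hq⟩ : ∃ q, q = Real.sqrt β := ⟨_, rfl⟩
  have hp2 : p ^ 2 = α := by rw [hp, Real.sq_sqrt hα]
  have hq2 : q ^ 2 = β := by rw [hq, Real.sq_sqrt hβ]
  obtain ⟨t₁, ht₁⟩ : ∃ t, t = z₁ (Sum.inr ()) := ⟨_, rfl⟩
  obtain ⟨t₂, ht₂⟩ : ∃ t, t = z₂ (Sum.inr ()) := ⟨_, rfl⟩
  -- the unit vector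
  obtain ⟨a₁, a₂, ha, hT⟩ : ∃ a₁ a₂ : ℝ, a₁ ^ 2 + a₂ ^ 2 = 1 ∧
      (a₁ * p * t₁ + a₂ * q * t₂) ^ 2 = α * t₁ ^ 2 + β * t₂ ^ 2 := by
    set τ := α * t₁ ^ 2 + β * t₂ ^ 2 with hτ
    have hτ0 : 0 ≤ τ := by positivity
    rcases hτ0.eq_or_lt with h | h
    · refine ⟨1, 0, by norm_num, ?_⟩
      have h1 : α * t₁ ^ 2 = 0 := by
        have : 0 ≤ α * t₁ ^ 2 := by positivity
        have : 0 ≤ β * t₂ ^ 2 := by positivity
        linarith
      rw [← h]
      calc (1 * p * t₁ + 0 * q * t₂) ^ 2 = p ^ 2 * t₁ ^ 2 := by ring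
        _ = 0 := by rw [hp2, h1]
    · have hs : 0 < Real.sqrt τ := Real.sqrt_pos.2 h
      have hs2 : Real.sqrt τ ^ 2 = τ := Real.sq_sqrt hτ0
      have e1 : (p * t₁) ^ 2 + (q * t₂) ^ 2 = τ := by
        rw [mul_pow, mul_pow, hp2, hq2]
      refine ⟨p * t₁ / Real.sqrt τ, q * t₂ / Real.sqrt τ, ?_, ?_⟩
      · rw [div_pow, div_pow, hs2, ← add_div, e1, div_self h.ne']
      · have : p * t₁ / Real.sqrt τ * p * t₁ + q * t₂ / Real.sqrt τ * q * t₂ =
            ((p * t₁) ^ 2 + (q * t₂) ^ 2) / Real.sqrt τ := by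
          field_simp
        rw [this, e1, div_pow, hs2, sq, mul_div_assoc, div_self h.ne', mul_one]
  set r₀ : I12 ⊕ Unit → ℝ := (a₁ * p) • z₁ + (a₂ * q) • z₂ with hr0
  set r₁ : I12 ⊕ Unit → ℝ := (a₂ * p) • z₁ - (a₁ * q) • z₂ with hr1
  set X₀ : Fin 6 → ℝ := fun i => r₀ (Sum.inl (Sum.inl i)) with hX0
  set Y₀ : Fin 6 → ℝ := fun i => r₀ (Sum.inl (Sum.inr i)) with hY0
  set X₁ : Fin 6 → ℝ := fun i => r₁ (Sum.inl (Sum.inl i)) with hX1
  set Y₁ : Fin 6 → ℝ := fun i => r₁ (Sum.inl (Sum.inr i)) with hY1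
  obtain ⟨z, w, hv, hzz, hzw, hww⟩ := exists_gram ![C₁, C₂, X₀, Y₀] X₁ Y₁
  have hv0 := hv 0
  have hv1 := hv 1
  have hv2 := hv 2
  have hv3 := hv 3
  simp only [Matrix.cons_val] at hv0 hv1 hv2 hv3
  refine ⟨r₀ + mk z w 0, ?_, ?_⟩
  · rw [hφ]
    show φ (r₀ + mk z w 0) = 0
    rw [map_add, hmk, hr0, map_add, map_smul, map_smul, hz1, hz2, hv0.1, hv1.2]
    simp
  · -- the three moments
    have mx : gx (fun j => (r₀ + mk z w 0) (Sum.inl j)) =
        α * gx (fun j => z₁ (Sum.inl j)) + β * gx (fun j => z₂ (Sum.inl j)) := by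
      have e1 : gx (fun j => (r₀ + mk z w 0) (Sum.inl j)) =
          X₀ ⬝ᵥ X₀ + 2 * (X₀ ⬝ᵥ z) + z ⬝ᵥ z := by
        unfold gx
        simp only [dotProduct, Finset.mul_sum]
        rw [← Finset.sum_add_distrib, ← Finset.sum_add_distrib]
        refine Finset.sum_congr rfl fun i _ => ?_
        simp only [mk, Pi.add_apply, Sum.elim_inl, hX0]
        ring
      rw [e1, hv2.1, hzz]
      unfold gx
      simp only [dotProduct, Finset.mul_sum]
      rw [mul_zero, add_zero, ← Finset.sum_add_distrib, ← Finset.sum_add_distrib]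
      refine Finset.sum_congr rfl fun i _ => ?_
      simp only [hX0, hX1, hr0, hr1, Pi.add_apply, Pi.sub_apply, Pi.smul_apply, smul_eq_mul]
      rw [← hp2, ← hq2]
      linear_combination (p ^ 2 * z₁ (Sum.inl (Sum.inl i)) ^ 2 +
        q ^ 2 * z₂ (Sum.inl (Sum.inl i)) ^ 2) * ha
    have my : gy (fun j => (r₀ + mk z w 0) (Sum.inl j)) =
        α * gy (fun j => z₁ (Sum.inl j)) + β * gy (fun j => z₂ (Sum.inl j)) := by
      have e1 : gy (fun j => (r₀ + mk z w 0) (Sum.inl j)) =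
          Y₀ ⬝ᵥ Y₀ + 2 * (Y₀ ⬝ᵥ w) + w ⬝ᵥ w := by
        unfold gy
        simp only [dotProduct, Finset.mul_sum]
        rw [← Finset.sum_add_distrib, ← Finset.sum_add_distrib]
        refine Finset.sum_congr rfl fun i _ => ?_
        simp only [mk, Pi.add_apply, Sum.elim_inl, Sum.elim_inr, hY0]
        ring
      rw [e1, hv3.2, hww]
      unfold gy
      simp only [dotProduct, Finset.mul_sum]
      rw [mul_zero, add_zero, ← Finset.sum_add_distrib, ← Finset.sum_add_distrib]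
      refine Finset.sum_congr rfl fun i _ => ?_
      simp only [hY0, hY1, hr0, hr1, Pi.add_apply, Pi.sub_apply, Pi.smul_apply, smul_eq_mul]
      rw [← hp2, ← hq2]
      linear_combination (p ^ 2 * z₁ (Sum.inl (Sum.inr i)) ^ 2 +
        q ^ 2 * z₂ (Sum.inl (Sum.inr i)) ^ 2) * ha
    have mp : gp (fun j => (r₀ + mk z w 0) (Sum.inl j)) =
        α * gp (fun j => z₁ (Sum.inl j)) + β * gp (fun j => z₂ (Sum.inl j)) := by
      have e1 : gp (fun j => (r₀ + mk z w 0) (Sum.inl j)) =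
          X₀ ⬝ᵥ Y₀ + X₀ ⬝ᵥ w + Y₀ ⬝ᵥ z + z ⬝ᵥ w := by
        unfold gp
        simp only [dotProduct]
        rw [← Finset.sum_add_distrib, ← Finset.sum_add_distrib, ← Finset.sum_add_distrib]
        refine Finset.sum_congr rfl fun i _ => ?_
        simp only [mk, Pi.add_apply, Sum.elim_inl, Sum.elim_inr, hX0, hY0]
        ring
      rw [e1, hv2.2, hv3.1, hzw]
      unfold gp
      simp only [dotProduct, Finset.mul_sum]
      rw [add_zero, add_zero, ← Finset.sum_add_distrib, ← Finset.sum_add_distrib]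
      refine Finset.sum_congr rfl fun i _ => ?_
      simp only [hX0, hY0, hX1, hY1, hr0, hr1, Pi.add_apply, Pi.sub_apply, Pi.smul_apply,
        smul_eq_mul]
      rw [← hp2, ← hq2]
      linear_combination (p ^ 2 * z₁ (Sum.inl (Sum.inl i)) * z₁ (Sum.inl (Sum.inr i)) +
        q ^ 2 * z₂ (Sum.inl (Sum.inl i)) * z₂ (Sum.inl (Sum.inr i))) * ha
    have mt : (r₀ + mk z w 0) (Sum.inr ()) ^ 2 = α * z₁ (Sum.inr ()) ^ 2 + β * z₂ (Sum.inr ()) ^ 2 := by
      rw [← ht₁, ← ht₂, ← hT]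
      simp only [mk, Pi.add_apply, Sum.elim_inr, hr0, Pi.smul_apply, smul_eq_mul, ← ht₁, ← ht₂]
      ring
    funext i
    fin_cases i
    · show sys.fh (r₀ + mk z w 0) 0 = α * sys.fh z₁ 0 + β * sys.fh z₂ 0
      rw [fh0, fh0, fh0, mp]
      ring
    · show sys.fh (r₀ + mk z w 0) 1 = α * sys.fh z₁ 1 + β * sys.fh z₂ 1
      rw [fh1, fh1, fh1, mp, my, mt]
      ring
    · show sys.fh (r₀ + mk z w 0) 2 = α * sys.fh z₁ 2 + β * sys.fh z₂ 2
      rw [fh2, fh2, fh2, mp, mx, mt]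
      ring

/-! ### The solution set -/

/-- The rank one point. -/
def pt (u v : ℝ) : I12 → ℝ := Sum.elim (Pi.single 0 u) (Pi.single 0 v)

theorem gx_pt (u v : ℝ) : gx (pt u v) = u ^ 2 := by
  unfold gx pt
  simp [Fin.sum_univ_six, Pi.single_apply]

theorem gy_pt (u v : ℝ) : gy (pt u v) = v ^ 2 := by
  unfold gy pt
  simp [Fin.sum_univ_six, Pi.single_apply]

theorem gp_pt (u v : ℝ) : gp (pt u v) = u * v := by
  unfold gp pt
  simp [Fin.sum_univ_six, Pi.single_apply]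

theorem S_nonempty : sys.S.Nonempty := by
  refine ⟨pt (1 / 2) (-(1 / 2)), fun i => ?_⟩
  fin_cases i
  · show sys.f 0 _ < 0
    rw [f0, gp_pt]
    norm_num
  · show sys.f 1 _ < 0
    rw [f1, gp_pt, gy_pt]
    norm_num
  · show sys.f 2 _ < 0
    rw [f2, gp_pt, gx_pt]
    norm_num

/-- A point of the convex hull of `S` satisfies `u x₀ + v y₀ < 1` for each unit vector `(u, v)`. -/
theorem hull_lt {u v : ℝ} (huv : u ^ 2 + v ^ 2 = 1) {x : I12 → ℝ} (hx : x ∈ convexHull ℝ sys.S) :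
    u * x (Sum.inl 0) + v * x (Sum.inr 0) < 1 := by
  have hconv : Convex ℝ {x : I12 → ℝ | u * x (Sum.inl 0) + v * x (Sum.inr 0) < 1} := by
    intro x hx y hy a b ha hb hab
    have h1 : u * x (Sum.inl 0) + v * x (Sum.inr 0) < 1 := hx
    have h2 : u * y (Sum.inl 0) + v * y (Sum.inr 0) < 1 := hy
    show u * (a • x + b • y) (Sum.inl 0) + v * (a • x + b • y) (Sum.inr 0) < 1
    simp only [Pi.add_apply, Pi.smul_apply, smul_eq_mul]
    rcases ha.eq_or_lt with h | h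
    · have hb1 : b = 1 := by linarith
      rw [← h, hb1]
      linarith
    · have h3 := mul_lt_mul_of_pos_left h1 h
      have h4 := mul_le_mul_of_nonneg_left h2.le hb
      linarith
  refine convexHull_min (fun x hx => ?_) hconv hx
  have h0 := hx 0
  have h1 := hx 1
  have h2 := hx 2
  rw [f0] at h0
  rw [f1] at h1
  rw [f2] at h2
  have hsum : (∑ i, (u * x (Sum.inl i) + v * x (Sum.inr i)) ^ 2) =
      u ^ 2 * gx x + 2 * u * v * gp x + v ^ 2 * gy x := by
    unfold gx gp gy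
    simp only [Finset.mul_sum]
    rw [← Finset.sum_add_distrib, ← Finset.sum_add_distrib]
    refine Finset.sum_congr rfl fun i _ => ?_
    ring
  have hle : (u * x (Sum.inl 0) + v * x (Sum.inr 0)) ^ 2 ≤
      ∑ i, (u * x (Sum.inl i) + v * x (Sum.inr i)) ^ 2 :=
    Finset.single_le_sum (f := fun i => (u * x (Sum.inl i) + v * x (Sum.inr i)) ^ 2)
      (fun i _ => sq_nonneg _) (Finset.mem_univ 0)
  have hlt : u ^ 2 * gx x + 2 * u * v * gp x + v ^ 2 * gy x < 1 := by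
    have a1 : gx x < 1 + gp x := by linarith
    have a2 : gy x < 1 + gp x := by linarith
    have a3 : gp x < 0 := by linarith
    have a4 : 0 ≤ (u + v) ^ 2 := sq_nonneg _
    have a5 : u ^ 2 * gx x + v ^ 2 * gy x < (u ^ 2 + v ^ 2) * (1 + gp x) := by
      by_cases hu : u = 0
      · have hv : v ^ 2 = 1 := by
          rw [hu] at huv
          linarith
        rw [hu, hv]
        linarith
      · have : 0 < u ^ 2 := by positivity
        have h3 := mul_lt_mul_of_pos_left a1 this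
        have h4 := mul_le_mul_of_nonneg_left a2.le (sq_nonneg v)
        linarith
    rw [huv] at a5
    nlinarith
  have h3 : (u * x (Sum.inl 0) + v * x (Sum.inr 0)) ^ 2 < 1 := by linarith
  show u * x (Sum.inl 0) + v * x (Sum.inr 0) < 1
  nlinarith

theorem pt_notMem {u v : ℝ} (huv : u ^ 2 + v ^ 2 = 1) : pt u v ∉ convexHull ℝ sys.S := by
  intro h
  have := hull_lt huv h
  have e : u * pt u v (Sum.inl 0) + v * pt u v (Sum.inr 0) = u ^ 2 + v ^ 2 := by
    simp [pt]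
    ring
  rw [e, huv] at this
  exact lt_irrefl _ this

theorem hull_ne : convexHull ℝ sys.S ≠ Set.univ := by
  intro h
  have := pt_notMem (u := 1) (v := 0) (by norm_num)
  rw [h] at this
  exact this (Set.mem_univ _)

/-! ### The good aggregations -/

theorem mulVec_sum_quad {κ : Type} [Fintype κ] (lam : Fin 3 → ℝ) (M : Fin 3 → Matrix κ κ ℝ)
    (z : κ → ℝ) : z ⬝ᵥ (∑ i, lam i • M i).mulVec z = ∑ i, lam i * (z ⬝ᵥ (M i).mulVec z) := by
  rw [Fin.sum_univ_three, Fin.sum_univ_three, Matrix.add_mulVec, Matrix.add_mulVec,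
    Matrix.smul_mulVec, Matrix.smul_mulVec, Matrix.smul_mulVec, dotProduct_add, dotProduct_add,
    dotProduct_smul, dotProduct_smul, dotProduct_smul]
  rfl

/-- For a good aggregation the `2 × 2` form is nonnegative. -/
theorem good_psd {lam : Fin 3 → ℝ} (h : sys.Good lam) (u v : ℝ) :
    0 ≤ 2 * lam 2 * u ^ 2 + 2 * (lam 0 - lam 1 - lam 2) * (u * v) + 2 * lam 1 * v ^ 2 := by
  obtain ⟨-, -, hneg, -⟩ := h
  obtain ⟨s, t, hst, hq⟩ := exists_nonneg hneg (mk (Pi.single 0 u) (Pi.single 0 v) 0)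
    (mk (Pi.single 1 u) (Pi.single 1 v) 0)
  have e : (s • mk (Pi.single 0 u) (Pi.single 0 v) 0 + t • mk (Pi.single 1 u) (Pi.single 1 v) 0) ⬝ᵥ
      (sys.Qagg lam).mulVec
        (s • mk (Pi.single 0 u) (Pi.single 0 v) 0 + t • mk (Pi.single 1 u) (Pi.single 1 v) 0) =
      (s ^ 2 + t ^ 2) *
        (2 * lam 2 * u ^ 2 + 2 * (lam 0 - lam 1 - lam 2) * (u * v) + 2 * lam 1 * v ^ 2) := by
    unfold QuadSystem.Qagg
    rw [mulVec_sum_quad, Fin.sum_univ_three]
    have e0 := fh0 (s • mk (Pi.single 0 u) (Pi.single 0 v) 0 +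
      t • mk (Pi.single 1 u) (Pi.single 1 v) 0)
    have e1 := fh1 (s • mk (Pi.single 0 u) (Pi.single 0 v) 0 +
      t • mk (Pi.single 1 u) (Pi.single 1 v) 0)
    have e2 := fh2 (s • mk (Pi.single 0 u) (Pi.single 0 v) 0 +
      t • mk (Pi.single 1 u) (Pi.single 1 v) 0)
    unfold QuadSystem.fh at e0 e1 e2
    rw [e0, e1, e2]
    have m1 : gx (fun j => (s • mk (Pi.single 0 u) (Pi.single 0 v) 0 +
        t • mk (Pi.single 1 u) (Pi.single 1 v) 0) (Sum.inl j)) = (s ^ 2 + t ^ 2) * u ^ 2 := by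
      unfold gx
      simp [mk, Fin.sum_univ_six, Pi.single_apply]
      ring
    have m2 : gy (fun j => (s • mk (Pi.single 0 u) (Pi.single 0 v) 0 +
        t • mk (Pi.single 1 u) (Pi.single 1 v) 0) (Sum.inl j)) = (s ^ 2 + t ^ 2) * v ^ 2 := by
      unfold gy
      simp [mk, Fin.sum_univ_six, Pi.single_apply]
      ring
    have m3 : gp (fun j => (s • mk (Pi.single 0 u) (Pi.single 0 v) 0 +
        t • mk (Pi.single 1 u) (Pi.single 1 v) 0) (Sum.inl j)) = (s ^ 2 + t ^ 2) * (u * v) := by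
      unfold gp
      simp [mk, Fin.sum_univ_six, Pi.single_apply]
      ring
    have m4 : (s • mk (Pi.single 0 u) (Pi.single 0 v) 0 +
        t • mk (Pi.single 1 u) (Pi.single 1 v) 0) (Sum.inr ()) = 0 := by
      simp [mk]
    rw [m1, m2, m3, m4]
    ring
  rw [e] at hq
  have hpos : 0 < s ^ 2 + t ^ 2 := by
    rcases hst with h | h
    · positivity
    · positivity
  exact nonneg_of_mul_nonneg_right hq hpos

theorem not_finite : ¬ sys.FinitelyDescribed := by
  rintro ⟨r, L, -, hgood, hhull⟩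
  -- a direction in which all the forms are positive
  set F : Fin r → ℝ → ℝ := fun j s =>
    2 * L j 2 * 1 ^ 2 + 2 * (L j 0 - L j 1 - L j 2) * (1 * s) + 2 * L j 1 * s ^ 2 with hF
  have hsub : ∀ j, {s : ℝ | F j s = 0}.Subsingleton := by
    intro j s hs t ht
    by_contra hne
    obtain ⟨hnn, hne0, -, -⟩ := hgood j
    have h0 := hnn 0
    have h1 := hnn 1
    have h2 := hnn 2
    -- the middle point
    have hm := good_psd (hgood j) 1 ((s + t) / 2)
    have hs' : 2 * L j 2 * 1 ^ 2 + 2 * (L j 0 - L j 1 - L j 2) * (1 * s) + 2 * L j 1 * s ^ 2 = 0 :=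
      hs
    have ht' : 2 * L j 2 * 1 ^ 2 + 2 * (L j 0 - L j 1 - L j 2) * (1 * t) + 2 * L j 1 * t ^ 2 = 0 :=
      ht
    have hst : 0 < (s - t) ^ 2 := by
      have : s - t ≠ 0 := sub_ne_zero.2 hne
      positivity
    have hL1 : L j 1 = 0 := by
      have : L j 1 * (s - t) ^ 2 ≤ 0 := by nlinarith
      have h3 : L j 1 ≤ 0 := by
        by_contra hcon
        push Not at hcon
        have := mul_pos hcon hst
        linarith
      linarith
    rw [hL1] at hs' ht'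
    have hd : (L j 0 - 0 - L j 2) * (s - t) = 0 := by linarith
    have hd2 := (mul_eq_zero.1 hd).resolve_right (sub_ne_zero.2 hne)
    have h20 : L j 2 = 0 := by nlinarith
    apply hne0
    funext i
    fin_cases i
    · show L j 0 = 0
      linarith
    · exact hL1
    · exact h20
  have hfin : (⋃ j, {s : ℝ | F j s = 0}).Finite := Set.finite_iUnion fun j => (hsub j).finite
  obtain ⟨s, hs⟩ := hfin.infinite_compl.nonempty
  have hs' : ∀ j, F j s ≠ 0 := by
    intro j hj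
    exact hs (Set.mem_iUnion.2 ⟨j, hj⟩)
  have hpos : ∀ j, 0 < F j s := fun j =>
    lt_of_le_of_ne (good_psd (hgood j) 1 s) (Ne.symm (hs' j))
  -- the point orthogonal to it
  set N : ℝ := Real.sqrt (1 + s ^ 2) with hN
  have hN2 : N ^ 2 = 1 + s ^ 2 := Real.sq_sqrt (by positivity)
  have hN0 : 0 < N := Real.sqrt_pos.2 (by positivity)
  have huv : (-s / N) ^ 2 + (1 / N) ^ 2 = 1 := by
    rw [div_pow, div_pow, hN2]
    field_simp
    ring
  refine pt_notMem huv ?_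
  rw [hhull]
  refine Set.mem_iInter.2 fun j => ?_
  show ∑ i, L j i * sys.f i (pt (-s / N) (1 / N)) < 0
  rw [Fin.sum_univ_three, f0, f1, f2, gx_pt, gy_pt, gp_pt]
  have h1 := hpos j
  have e : L j 0 * (2 * (-s / N * (1 / N))) +
      L j 1 * (2 * (1 / N) ^ 2 - 2 * (-s / N * (1 / N)) - 2) +
      L j 2 * (2 * (-s / N) ^ 2 - 2 * (-s / N * (1 / N)) - 2) = -(F j s) / N ^ 2 := by
    simp only [hF]
    field_simp
    rw [hN2]
    ring
  rw [e]
  exact div_neg_of_neg_of_pos (neg_neg_of_pos h1) (by positivity)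

end Pool.Agent.R228.AG
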